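import Pool.Agent.Helper91.FU.RC
import Pool.Agent.Helper91.TM.I

/-!
Fused machine (MP_c75db0, star frame), row M: sums of products.
-/

set_option autoImplicit false
set_option exponentiation.threshold 100000
noncomputable section
namespace Pool.Agent.Helper91.FU

open Finset
open Pool.Agent.Helper91
open Pool.Agent.Helper90.KMT (PT)
open Pool.Agent.Helper90.KMO (UU UU_pos andB_t)
open Pool.Agent.Helper86.CX (andB)
open Pool.Agent.Helper86.CT (Mo)
open Pool.Agent.Helper91.TM (TP Sm Sz Sp Ev Nh zc tS vb xd ds SB)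
open Pool.Agent.Helper91.TMK (TOK)

/-! ### the constants -/

theorem fO_sm : fO = Sm 301 (fun i => TM.fo (nat_lit 281474976710656) (vb i)) :=
  TM.cst_of (by decide +kernel)

theorem fO_z : (fO : ℤ) = Sz 301 ov := by
  rw [fO_sm, TM.Sz_cast]
  refine TM.Sz_congr fun i _ => ?_
  unfold ov
  cases vb i with
  | false => rfl
  | true =>
    show ((281474976710656 : ℕ) : ℤ) = _
    norm_num

theorem sh1 (k : ℕ) : Nat.shiftLeft 1 k = 2 ^ k := by
  have h := Nat.shiftLeft_eq 1 k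
  rwa [one_mul] at h
theorem shl (x k : ℕ) : Nat.shiftLeft x k = x * 2 ^ k := Nat.shiftLeft_eq x k

theorem fR_n : fR + fO = 2 ^ (160 * 301) := by
  have h : Nat.beq (Nat.add fR fO) (Nat.shiftLeft (nat_lit 1) (160 * 301)) = true := by
    decide +kernel
  exact (Nat.eq_of_beq_eq_true h).trans (sh1 _)
theorem fZ_n : fZ + (fO + fO * 2 ^ 80) = 2 ^ (160 * 301) := by
  have h : Nat.beq (Nat.add fZ (Nat.add fO (Nat.shiftLeft fO 80)))
      (Nat.shiftLeft (nat_lit 1) (160 * 301)) = true := by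
    decide +kernel
  have h2 := (Nat.eq_of_beq_eq_true h).trans (sh1 _)
  rw [shl] at h2
  exact h2
theorem fY_n : fY + fO * 2 ^ 80 = 2 * 2 ^ (160 * 301) + fO := by
  have h : Nat.beq (Nat.add fY (Nat.shiftLeft fO 80))
      (Nat.add (Nat.mul 2 (Nat.shiftLeft (nat_lit 1) (160 * 301))) fO) = true := by
    decide +kernel
  have h2 := Nat.eq_of_beq_eq_true h
  rw [sh1, shl] at h2
  exact h2

theorem cast2 (k : ℕ) : ((2 ^ k : ℕ) : ℤ) = 2 ^ k := by
  push_cast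
  rfl
theorem fR_i : (fR : ℤ) + fO = 2 ^ (160 * 301) := by
  rw [← cast2, ← fR_n, Nat.cast_add]
theorem fZ_i : (fZ : ℤ) + (fO + fO * 2 ^ 80) = 2 ^ (160 * 301) := by
  rw [← cast2 (160 * 301), ← fZ_n, Nat.cast_add, Nat.cast_add, Nat.cast_mul, cast2]
theorem fY_i : (fY : ℤ) + fO * 2 ^ 80 = 2 * 2 ^ (160 * 301) + fO := by
  have h : ((fY + fO * 2 ^ 80 : ℕ) : ℤ) = ((2 * 2 ^ (160 * 301) + fO : ℕ) : ℤ) := by rw [fY_n]
  rw [Nat.cast_add, Nat.cast_add, Nat.cast_mul, Nat.cast_mul, cast2, cast2] at h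
  exact h

theorem Sz_mono {n : ℕ} {f g : ℕ → ℤ} (h : ∀ i < n, f i ≤ g i) : Sz n f ≤ Sz n g :=
  Finset.sum_le_sum fun i hi =>
    mul_le_mul_of_nonneg_right (h i (Finset.mem_range.1 hi)) (by positivity)

/-! ### the packed numbers of a product -/

section

variable {c : ℕ} {x : FP} {p q : ℕ → ℤ} {n : ℕ → ℕ}

theorem reF_z (h : FR c x p q n) : ((reF x : ℕ) : ℤ) = Sz 301 p + 2 ^ (160 * 301) := by
  have e : ((x.a + fR : ℕ) : ℤ) = x.a + fR := by push_cast; rfl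
  have e2 := fR_i
  show ((x.a + fR : ℕ) : ℤ) = _
  rw [e, h.a, TM.Sz_add]
  rw [fO_z] at e2
  linarith

theorem imF_z (h : FR c x p q n) : ((imF x : ℕ) : ℤ) = Sz 301 q + 2 ^ (160 * 301) := by
  have e : ((x.b + fR : ℕ) : ℤ) = x.b + fR := by push_cast; rfl
  have e2 := fR_i
  show ((x.b + fR : ℕ) : ℤ) = _
  rw [e, h.b, TM.Sz_add]
  rw [fO_z] at e2
  linarith

theorem zF_z (h : FR c x p q n) :
    ((zF x : ℕ) : ℤ) = Sz 301 p + 2 ^ 80 * Sz 301 q + 2 ^ (160 * 301) := by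
  have e0 : zF x = x.a + x.b * 2 ^ 80 + fZ := by
    show (x.a + Nat.shiftLeft x.b 80) + fZ = _
    rw [shl]
  have e : ((x.a + x.b * 2 ^ 80 + fZ : ℕ) : ℤ) = x.a + x.b * 2 ^ 80 + fZ := by push_cast; rfl
  have e2 := fZ_i
  rw [e0, e, h.a, h.b, TM.Sz_add, TM.Sz_add]
  rw [fO_z] at e2
  linarith

theorem yF_z (h : FR c x p q n) (hc : c ≤ 4) :
    ((yF x : ℕ) : ℤ) = 2 ^ 80 * Sz 301 p - Sz 301 q + 2 * 2 ^ (160 * 301) := by
  have e2 := fZ_i
  have e3 := fY_i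
  have hb : (x.b : ℤ) ≤ 2 * fO := by
    rw [h.b, fO_z]
    have e4 : 2 * Sz 301 ov = Sz 301 (fun i => ov i + ov i) := by rw [TM.Sz_add]; ring
    rw [e4]
    refine Sz_mono fun i _ => ?_
    cases hv : vb i with
    | false =>
      have h1 := h.sq i hv
      have h2 : ov i = 0 := by unfold ov; rw [hv]; rfl
      rw [h1, h2]
    | true =>
      have h1 := (abs_le.1 (h.bq i)).2
      have h2 : ov i = 2 ^ 48 := by unfold ov; rw [hv]; rfl
      rw [h2]
      have h3 : (c : ℤ) ≤ 4 := by exact_mod_cast hc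
      linarith
  have hle : x.b ≤ fY := by
    have h5 : (x.b : ℤ) ≤ fY := by
      have hZ : (0 : ℤ) ≤ fZ := Int.natCast_nonneg _
      have hO : (0 : ℤ) ≤ fO := Int.natCast_nonneg _
      generalize (2 : ℤ) ^ (160 * 301) = M at *
      linarith
    exact_mod_cast h5
  have e0 : yF x = x.a * 2 ^ 80 + (fY - x.b) := by
    show Nat.shiftLeft x.a 80 + (fY - x.b) = _
    rw [shl]
  have e : ((x.a * 2 ^ 80 + (fY - x.b) : ℕ) : ℤ) = x.a * 2 ^ 80 + (fY - x.b) := by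
    rw [Nat.cast_add, Nat.cast_sub hle]
    push_cast
    rfl
  rw [e0, e, h.a, h.b, TM.Sz_add, TM.Sz_add]
  rw [fO_z] at e3
  linarith

end

/-- the digits of a product -/
theorem mul_N {P Q P' Q' : ℤ} {p q p' q' : ℕ → ℤ} (hP : P = Sz 301 p) (hQ : Q = Sz 301 q)
    (hP' : P' = Sz 301 p') (hQ' : Q' = Sz 301 q') :
    (P + 2 ^ 80 * Q) * P' + (2 ^ 80 * P - Q) * Q' ≡
      Sz 301 (fun i => TM.tv (TM.pr p q p' q') i + 2 ^ 80 * TM.tv (TM.pi p q p' q') i)
        [ZMOD 2 ^ (160 * 301)] := by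
  obtain ⟨T1, e1⟩ := TM.Sz_mul 301 p p'
  obtain ⟨T2, e2⟩ := TM.Sz_mul 301 q q'
  obtain ⟨T3, e3⟩ := TM.Sz_mul 301 p q'
  obtain ⟨T4, e4⟩ := TM.Sz_mul 301 q p'
  have e5 : Sz 301 (TM.tv (TM.pr p q p' q')) = Sz 301 (TM.cv p p') - Sz 301 (TM.cv q q') := by
    rw [TM.Sz_tv]
    exact TM.Sz_sub _ _ _
  have e6 : Sz 301 (TM.tv (TM.pi p q p' q')) = Sz 301 (TM.cv p q') + Sz 301 (TM.cv q p') := by
    rw [TM.Sz_tv]
    exact TM.Sz_add _ _ _
  have e7 : Sz 301 (fun i => TM.tv (TM.pr p q p' q') i + 2 ^ 80 * TM.tv (TM.pi p q p' q') i) =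
      Sz 301 (TM.tv (TM.pr p q p' q')) + 2 ^ 80 * Sz 301 (TM.tv (TM.pi p q p' q')) := by
    rw [TM.Sz_add]
    congr 1
    unfold Sz
    rw [Finset.mul_sum]
    exact Finset.sum_congr rfl fun i _ => by ring
  rw [e7, e5, e6]
  have e8 : (P + 2 ^ 80 * Q) * P' + (2 ^ 80 * P - Q) * Q' =
      (Sz 301 (TM.cv p p') - Sz 301 (TM.cv q q') +
        2 ^ 80 * (Sz 301 (TM.cv p q') + Sz 301 (TM.cv q p'))) +
      2 ^ (160 * 301) * (T1 - T2 + 2 ^ 80 * (T3 + T4)) := by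
    have a1 : P * P' = Sz 301 (TM.cv p p') + 2 ^ (160 * 301) * T1 := by rw [hP, hP', e1]
    have a2 : Q * Q' = Sz 301 (TM.cv q q') + 2 ^ (160 * 301) * T2 := by rw [hQ, hQ', e2]
    have a3 : P * Q' = Sz 301 (TM.cv p q') + 2 ^ (160 * 301) * T3 := by rw [hP, hQ', e3]
    have a4 : Q * P' = Sz 301 (TM.cv q p') + 2 ^ (160 * 301) * T4 := by rw [hQ, hP', e4]
    generalize (2 : ℤ) ^ (160 * 301) = M at *
    have e9 : (P + 2 ^ 80 * Q) * P' + (2 ^ 80 * P - Q) * Q' =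
        P * P' - Q * Q' + 2 ^ 80 * (P * Q' + Q * P') := by ring
    rw [e9, a1, a2, a3, a4]
    ring
  rw [e8]
  exact TM.md_add _ _ _

/-! ### the majorant of a product -/

/-- product of the majorants -/
def cm (n m : ℕ → ℕ) (k : ℕ) : ℕ :=
  ∑ i ∈ range 8, ∑ j ∈ range 8, if i + j = k then n i * m j else 0

theorem cm_sum {R : Type*} [CommSemiring R] (n m : ℕ → ℕ) (φ : ℕ → R) :
    ∑ k ∈ range 15, (cm n m k : R) * φ k =
      ∑ i ∈ range 8, ∑ j ∈ range 8, (n i : R) * (m j : R) * φ (i + j) := by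
  have e : ∀ k, (cm n m k : R) * φ k = ∑ i ∈ range 8, ∑ j ∈ range 8,
      if i + j = k then (n i : R) * (m j : R) * φ (i + j) else 0 := by
    intro k
    unfold cm
    push_cast
    rw [Finset.sum_mul]
    refine Finset.sum_congr rfl fun i _ => ?_
    rw [Finset.sum_mul]
    refine Finset.sum_congr rfl fun j _ => ?_
    by_cases h : i + j = k
    · rw [if_pos h, if_pos h, h]
    · rw [if_neg h, if_neg h, zero_mul]
  rw [Finset.sum_congr rfl fun k _ => e k, Finset.sum_comm]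
  refine Finset.sum_congr rfl fun i hi => ?_
  rw [Finset.sum_comm]
  refine Finset.sum_congr rfl fun j hj => ?_
  rw [Finset.sum_ite_eq, if_pos]
  rw [Finset.mem_range] at *
  omega

theorem cm_Sm (n m : ℕ → ℕ) : Sm 8 n * Sm 8 m = Sm 15 (cm n m) := by
  rw [TM.Sm_eq, TM.Sm_eq, TM.Sm_eq, Finset.sum_mul_sum]
  have h := cm_sum (R := ℕ) n m (fun k => 2 ^ (160 * k))
  simp only [Nat.cast_id] at h
  rw [h]
  refine Finset.sum_congr rfl fun i _ => Finset.sum_congr rfl fun j _ => ?_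
  rw [mul_add, pow_add]
  ring

theorem cm_Wt (n m : ℕ → ℕ) : Wt 15 (cm n m) = Wt 8 n * Wt 8 m := by
  unfold Wt
  rw [Finset.sum_mul_sum]
  have h := cm_sum (R := ℕ) n m (fun k => 4 ^ k)
  simp only [Nat.cast_id] at h
  have e : ∑ k ∈ range 15, 4 ^ k * cm n m k = ∑ k ∈ range 15, cm n m k * 4 ^ k :=
    Finset.sum_congr rfl fun k _ => mul_comm _ _
  rw [e, h]
  refine Finset.sum_congr rfl fun i _ => Finset.sum_congr rfl fun j _ => ?_
  rw [pow_add]
  ring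

theorem Tl_sum (n : ℕ → ℕ) : (Tl n : ℝ) = ∑ k ∈ range 15, (n k : ℝ) * (if 7 ≤ k then 1 else 0) := by
  unfold Tl
  have e : range 15 = range (7 + 8) := rfl
  rw [e, Finset.sum_range_add]
  have e1 : ∑ k ∈ range 7, (n k : ℝ) * (if 7 ≤ k then 1 else 0) = 0 := by
    refine Finset.sum_eq_zero fun k hk => ?_
    rw [Finset.mem_range] at hk
    rw [if_neg (by omega), mul_zero]
  rw [e1, zero_add]
  push_cast
  refine Finset.sum_congr rfl fun k _ => ?_
  rw [if_pos (by omega), mul_one]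

theorem cm_Tl (n m : ℕ → ℕ) : (Tl (cm n m) : ℝ) =
    ∑ i ∈ range 8, ∑ j ∈ range 8, (n i : ℝ) * (m j : ℝ) * (if 7 ≤ i + j then 1 else 0) := by
  rw [Tl_sum, cm_sum]

/-! ### double sums -/

theorem blk7 {R : Type*} [AddCommMonoid R] (g : ℕ → R) :
    g 0 + g 1 + g 2 + g 3 + g 4 + g 5 + g 6 = ∑ e ∈ range 7, g e := by
  simp only [Finset.sum_range_succ, Finset.sum_range_zero, zero_add]

theorem blk {R : Type*} [AddCommMonoid R] (f : ℕ → R) :
    ∑ i ∈ range 301, f i = ∑ e ∈ range 7, ∑ r ∈ range 43, f (43 * e + r) := by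
  rw [TM.sum_blk]
  exact blk7 (fun e => ∑ r ∈ range 43, f (43 * e + r))

theorem xd43 {e r : ℕ} (hr : r ∈ range 43) : xd (43 * e + r) = e := by
  rw [Finset.mem_range] at hr
  unfold xd
  omega

theorem dbl (A B : ℕ → ℝ) (χ : ℕ → ℕ → ℝ) :
    ∑ p ∈ range 301 ×ˢ range 301, A p.1 * B p.2 * χ (xd p.1) (xd p.2) =
      ∑ e ∈ range 7, ∑ f ∈ range 7, (∑ r ∈ range 43, A (43 * e + r)) *
        (∑ r ∈ range 43, B (43 * f + r)) * χ e f := by
  rw [Finset.sum_product, blk]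
  refine Finset.sum_congr rfl fun e _ => ?_
  have h1 : ∀ r ∈ range 43, ∑ j ∈ range 301, A (43 * e + r) * B j * χ (xd (43 * e + r)) (xd j) =
      ∑ f ∈ range 7, A (43 * e + r) * (∑ s ∈ range 43, B (43 * f + s)) * χ e f := by
    intro r hr
    rw [xd43 hr, blk]
    refine Finset.sum_congr rfl fun f _ => ?_
    rw [Finset.mul_sum, Finset.sum_mul]
    refine Finset.sum_congr rfl fun s hs => ?_
    rw [xd43 hs]
  have h2 : ∀ r ∈ range 43, ∑ j ∈ range 301, A ((43 * e + r, j) : ℕ × ℕ).1 *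
      B ((43 * e + r, j) : ℕ × ℕ).2 * χ (xd ((43 * e + r, j) : ℕ × ℕ).1)
        (xd ((43 * e + r, j) : ℕ × ℕ).2) =
      ∑ f ∈ range 7, A (43 * e + r) * (∑ s ∈ range 43, B (43 * f + s)) * χ e f := h1
  rw [Finset.sum_congr rfl h2, Finset.sum_comm]
  refine Finset.sum_congr rfl fun f _ => ?_
  rw [Finset.sum_mul, Finset.sum_mul]

set_option maxRecDepth 20000 in
/-- the homogeneous parts of a product -/
theorem nh_cv {a b : ℕ → ℂ} (ha : Sp a) (hb : Sp b) {d : ℕ} (hd : d < 7) :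
    ∑ r ∈ range 43, ‖TM.cv a b (43 * d + r)‖ ≤
      ∑ e ∈ range 7, ∑ f ∈ range 7, Nh a e * Nh b f * (if e + f = d then 1 else 0) := by
  have e1 : ∑ r ∈ range 43, ‖TM.cv a b (43 * d + r)‖ =
      ∑ k ∈ range 301, ‖TM.cv a b k‖ * (if xd k = d then 1 else 0) := by
    rw [blk]
    have e2 : ∀ e ∈ range 7, ∑ r ∈ range 43, ‖TM.cv a b (43 * e + r)‖ *
        (if xd (43 * e + r) = d then (1 : ℝ) else 0) =
        if e = d then ∑ r ∈ range 43, ‖TM.cv a b (43 * e + r)‖ else 0 := by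
      intro e _
      by_cases h : e = d
      · rw [if_pos h]
        refine Finset.sum_congr rfl fun r hr => ?_
        rw [xd43 hr, if_pos h, mul_one]
      · rw [if_neg h]
        refine Finset.sum_eq_zero fun r hr => ?_
        rw [xd43 hr, if_neg h, mul_zero]
    rw [Finset.sum_congr rfl e2, Finset.sum_ite_eq', if_pos (Finset.mem_range.2 hd)]
  have h1 : ∀ k ∈ range 301, ‖TM.cv a b k‖ * (if xd k = d then (1 : ℝ) else 0) ≤
      ∑ p ∈ antidiagonal k, ‖a p.1‖ * ‖b p.2‖ * (if xd p.1 + xd p.2 = d then 1 else 0) := by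
    intro k hk
    rw [Finset.mem_range] at hk
    unfold TM.cv
    refine (mul_le_mul_of_nonneg_right (norm_sum_le _ _) (by split_ifs <;> norm_num)).trans ?_
    rw [Finset.sum_mul]
    refine Finset.sum_le_sum fun p hp => ?_
    rw [HasAntidiagonal.mem_antidiagonal] at hp
    rw [norm_mul]
    cases h3 : vb p.1 with
    | false => rw [ha _ h3]; simp
    | true =>
      cases h4 : vb p.2 with
      | false => rw [hb _ h4]; simp
      | true =>
        have h5 := (TM.vb_add h3 h4 (by omega)).2.2.2.2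
        rw [hp] at h5
        rw [h5]
  rw [e1]
  refine (Finset.sum_le_sum h1).trans ?_
  have h2 := TM.split_sum (R := ℝ) 301
    (fun p => ‖a p.1‖ * ‖b p.2‖ * (if xd p.1 + xd p.2 = d then 1 else 0))
  have h3 : 0 ≤ ∑ p ∈ (range 301 ×ˢ range 301).filter (fun p => ¬ (p.1 + p.2 < 301)),
      ‖a p.1‖ * ‖b p.2‖ * (if xd p.1 + xd p.2 = d then (1 : ℝ) else 0) :=
    Finset.sum_nonneg fun p _ => by split_ifs <;> positivity
  have h4 := dbl (fun i => ‖a i‖) (fun i => ‖b i‖) (fun e f => if e + f = d then 1 else 0)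
  have h5 : ∑ p ∈ range 301 ×ˢ range 301,
      ‖a p.1‖ * ‖b p.2‖ * (if xd p.1 + xd p.2 = d then (1 : ℝ) else 0) =
      ∑ e ∈ range 7, ∑ f ∈ range 7, Nh a e * Nh b f * (if e + f = d then 1 else 0) := h4
  linarith

set_option maxRecDepth 20000 in
/-- the dropped part -/
theorem hd_s {t : ℕ → ℝ} (hP : PT 3 t) {a b : ℕ → ℂ} (ha : Sp a) (hb : Sp b) :
    ‖TM.Hd (sS t) a b‖ ≤ ∑ e ∈ range 7, ∑ f ∈ range 7,
      (Nh a e / 4 ^ e) * (Nh b f / 4 ^ f) * (if 7 ≤ e + f then 1 else 0) := by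
  have h1 : ‖TM.Hd (sS t) a b‖ ≤ ∑ p ∈ range 301 ×ˢ range 301,
      (‖a p.1‖ / 4 ^ xd p.1) * (‖b p.2‖ / 4 ^ xd p.2) *
        (if 7 ≤ xd p.1 + xd p.2 then 1 else 0) := by
    unfold TM.Hd
    refine (norm_sum_le _ _).trans ?_
    rw [Finset.sum_filter]
    refine Finset.sum_le_sum fun p _ => ?_
    have hnn : 0 ≤ (‖a p.1‖ / 4 ^ xd p.1) * (‖b p.2‖ / 4 ^ xd p.2) *
        (if 7 ≤ xd p.1 + xd p.2 then (1 : ℝ) else 0) := by split_ifs <;> positivity
    by_cases h2 : p.1 + p.2 < 301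
    · rw [if_neg (by simpa using h2)]
      exact hnn
    · rw [if_pos h2]
      cases h3 : vb p.1 with
      | false => rw [ha _ h3]; simp
      | true =>
        cases h4 : vb p.2 with
        | false => rw [hb _ h4]; simp
        | true =>
          rw [if_pos (TM.vb_hi h3 h4 (by omega)), mul_one, norm_mul, norm_mul, norm_mul,
            Complex.norm_real, Complex.norm_real, Real.norm_eq_abs, Real.norm_eq_abs]
          have m1 := mu_s hP p.1
          have m2 := mu_s hP p.2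
          refine mul_le_mul ?_ ?_ (by positivity) (by positivity)
          · rw [div_eq_mul_one_div]
            exact mul_le_mul_of_nonneg_left m1 (norm_nonneg _)
          · rw [div_eq_mul_one_div]
            exact mul_le_mul_of_nonneg_left m2 (norm_nonneg _)
  refine h1.trans (le_of_eq ?_)
  have h4 := dbl (fun i => ‖a i‖ / 4 ^ xd i) (fun i => ‖b i‖ / 4 ^ xd i)
    (fun e f => if 7 ≤ e + f then 1 else 0)
  have h5 : ∀ (z : ℕ → ℂ) (e : ℕ), ∑ r ∈ range 43, ‖z (43 * e + r)‖ / 4 ^ xd (43 * e + r) =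
      Nh z e / 4 ^ e := by
    intro z e
    unfold Nh
    rw [Finset.sum_div]
    refine Finset.sum_congr rfl fun r hr => ?_
    rw [xd43 hr]
  refine h4.trans ?_
  refine Finset.sum_congr rfl fun e _ => Finset.sum_congr rfl fun f _ => ?_
  rw [h5 a e, h5 b f]

/-! ### THE ROWS -/

variable {c c' : ℕ} {t : ℕ → ℝ} {f g : ℂ} {x y : FP} {u v : RW}

theorem RV.congr (h : RV c t f u) (e : f = g) : RV c t g u := e ▸ h

theorem RR.mono {p q : ℕ → ℤ} {n : ℕ → ℕ} (h : RR c u p q n) (hc : c ≤ c') : RR c' u p q n :=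
  ⟨h.N, h.D, h.sp, h.sq, h.h, h.w.trans (Nat.mul_le_mul_right _ hc)⟩

theorem RV.mono (h : RV c t f u) (hc : c ≤ c') : RV c' t f u := by
  intro hk
  obtain ⟨p, q, n, h1, h2⟩ := h hk
  exact ⟨p, q, n, h1.mono hc, h2⟩

theorem zc_tv (p q p' q' : ℕ → ℤ) (k : ℕ) (hk : k < 301) :
    zc (TM.tv (TM.pr p q p' q')) (TM.tv (TM.pi p q p' q')) k =
      TM.cv (zc p q) (zc p' q') k := by
  rw [TM.zc_cv]
  unfold zc
  rw [TM.tv_lt hk, TM.tv_lt hk]

theorem zc_sp {p q : ℕ → ℤ} (hp : Sp p) (hq : Sp q) : Sp (zc p q) := by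
  intro i hi
  unfold zc
  rw [hp i hi, hq i hi]
  simp

/-- the sum with the last term -/
theorem sum_last (a b : ℕ → ℝ) : ∑ i ∈ range 8, ∑ j ∈ range 8,
    a i * b j * (if 7 ≤ i + j then (1 : ℝ) else 0) =
    (∑ i ∈ range 7, ∑ j ∈ range 7, a i * b j * (if 7 ≤ i + j then 1 else 0)) +
      ((∑ i ∈ range 7, a i) * b 7 + a 7 * (∑ j ∈ range 7, b j) + a 7 * b 7) := by
  rw [Finset.sum_range_succ]
  have h1 : ∀ i ∈ range 7, ∑ j ∈ range 8, a i * b j * (if 7 ≤ i + j then (1 : ℝ) else 0) =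
      (∑ j ∈ range 7, a i * b j * (if 7 ≤ i + j then 1 else 0)) + a i * b 7 := by
    intro i _
    rw [Finset.sum_range_succ, if_pos (by omega), mul_one]
  have h2 : ∑ j ∈ range 8, a 7 * b j * (if 7 ≤ 7 + j then (1 : ℝ) else 0) =
      a 7 * (∑ j ∈ range 7, b j) + a 7 * b 7 := by
    rw [Finset.sum_range_succ, if_pos (by omega), mul_one, Finset.mul_sum]
    congr 1
    refine Finset.sum_congr rfl fun j _ => ?_
    rw [if_pos (by omega), mul_one]
  rw [Finset.sum_congr rfl h1, h2, Finset.sum_add_distrib, Finset.sum_mul]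
  ring

/-- the common part of the two products -/
theorem mul_core (hP : PT 3 t) {p q p' q' : ℕ → ℤ} {n n' : ℕ → ℕ} (hx : FR c x p q n)
    (hy : FR c' y p' q' n') (ex : ‖2 ^ 31 * f - Ev (sS t) (zc p q)‖ ≤ (n 7 : ℝ) / 2 ^ 17)
    (ey : ‖2 ^ 31 * g - Ev (sS t) (zc p' q')‖ ≤ (n' 7 : ℝ) / 2 ^ 17)
    (hN : (u.N : ℤ) ≡ (Sz 301 p + 2 ^ 80 * Sz 301 q) * Sz 301 p' +
      (2 ^ 80 * Sz 301 p - Sz 301 q) * Sz 301 q' [ZMOD 2 ^ (160 * 301)])
    (hD : u.D = x.d * y.d) :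
    RR (c * c') u (TM.tv (TM.pr p q p' q')) (TM.tv (TM.pi p q p' q')) (cm n n') ∧
      ‖2 ^ 62 * (f * g) - Ev (sS t) (zc (TM.tv (TM.pr p q p' q')) (TM.tv (TM.pi p q p' q')))‖ ≤
        (Tl (cm n n') : ℝ) / 2 ^ 34 := by
  have sz := zc_sp hx.sp hx.sq
  have sz' := zc_sp hy.sp hy.sq
  set z := zc p q with hz
  set z' := zc p' q' with hz'
  have ev : Ev (sS t) (zc (TM.tv (TM.pr p q p' q')) (TM.tv (TM.pi p q p' q'))) =
      Ev (sS t) (TM.cv z z') := by
    unfold Ev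
    refine Finset.sum_congr rfl fun i hi => ?_
    rw [zc_tv p q p' q' i (Finset.mem_range.1 hi)]
  have nz : ∀ d < 7, Nh z d / 4 ^ d ≤ (n d : ℝ) / 2 ^ 17 := by
    intro d hd
    have h := hx.h d hd
    rw [div_le_div_iff₀ (by positivity) (by positivity)]
    linarith
  have nz' : ∀ d < 7, Nh z' d / 4 ^ d ≤ (n' d : ℝ) / 2 ^ 17 := by
    intro d hd
    have h := hy.h d hd
    rw [div_le_div_iff₀ (by positivity) (by positivity)]
    linarith
  constructor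
  · refine ⟨hN.trans (mul_N rfl rfl rfl rfl), ?_, TM.pr_sp hx.sp hy.sp hx.sq hy.sq,
      TM.pi_sp hx.sp hy.sp hx.sq hy.sq, ?_, ?_⟩
    · rw [hD, hx.d, hy.d, cm_Sm]
    · intro d hd
      have e1 : Nh (zc (TM.tv (TM.pr p q p' q')) (TM.tv (TM.pi p q p' q'))) d =
          ∑ r ∈ range 43, ‖TM.cv z z' (43 * d + r)‖ := by
        unfold Nh
        refine Finset.sum_congr rfl fun r hr => ?_
        rw [Finset.mem_range] at hr
        rw [zc_tv p q p' q' _ (by omega)]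
      rw [e1]
      have h1 := nh_cv sz sz' hd
      have h2 : (4 : ℝ) ^ d * (cm n n' d : ℝ) = ∑ i ∈ range 8, ∑ j ∈ range 8,
          (4 ^ i * (n i : ℝ)) * (4 ^ j * (n' j : ℝ)) * (if i + j = d then 1 else 0) := by
        unfold cm
        push_cast
        rw [Finset.mul_sum]
        refine Finset.sum_congr rfl fun i _ => ?_
        rw [Finset.mul_sum]
        refine Finset.sum_congr rfl fun j _ => ?_
        by_cases h : i + j = d
        · rw [if_pos h, if_pos h, ← h, pow_add]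
          ring
        · rw [if_neg h, if_neg h]
          ring
      rw [h2]
      have h3 : (2 : ℝ) ^ 34 * ∑ e ∈ range 7, ∑ f ∈ range 7,
          Nh z e * Nh z' f * (if e + f = d then 1 else 0) = ∑ e ∈ range 7, ∑ f ∈ range 7,
          (2 ^ 17 * Nh z e) * (2 ^ 17 * Nh z' f) * (if e + f = d then 1 else 0) := by
        rw [Finset.mul_sum]
        refine Finset.sum_congr rfl fun e _ => ?_
        rw [Finset.mul_sum]
        refine Finset.sum_congr rfl fun f _ => ?_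
        ring
      refine (mul_le_mul_of_nonneg_left h1 (by positivity)).trans ?_
      rw [h3]
      have n1 := TM.Nh_nn z
      have n2 := TM.Nh_nn z'
      have h4 : ∑ e ∈ range 7, ∑ f ∈ range 7,
          (2 ^ 17 * Nh z e) * (2 ^ 17 * Nh z' f) * (if e + f = d then (1 : ℝ) else 0) ≤
          ∑ e ∈ range 7, ∑ f ∈ range 7,
          (4 ^ e * (n e : ℝ)) * (4 ^ f * (n' f : ℝ)) * (if e + f = d then (1 : ℝ) else 0) := by
        refine Finset.sum_le_sum fun e he => Finset.sum_le_sum fun f hf => ?_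
        rw [Finset.mem_range] at he hf
        refine mul_le_mul_of_nonneg_right ?_ (by split_ifs <;> norm_num)
        exact mul_le_mul (hx.h e he) (hy.h f hf) (mul_nonneg (by positivity) (n2 f))
          (by positivity)
      refine h4.trans ?_
      have nn : ∀ i j : ℕ, 0 ≤ (4 ^ i * (n i : ℝ)) * (4 ^ j * (n' j : ℝ)) *
          (if i + j = d then (1 : ℝ) else 0) := fun i j => by split_ifs <;> positivity
      have h5 : ∀ e, ∑ f ∈ range 7, (4 ^ e * (n e : ℝ)) * (4 ^ f * (n' f : ℝ)) *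
          (if e + f = d then (1 : ℝ) else 0) ≤ ∑ f ∈ range 8, (4 ^ e * (n e : ℝ)) *
          (4 ^ f * (n' f : ℝ)) * (if e + f = d then (1 : ℝ) else 0) := by
        intro e
        rw [Finset.sum_range_succ _ 7]
        linarith [nn e 7]
      refine (Finset.sum_le_sum fun e _ => h5 e).trans ?_
      rw [Finset.sum_range_succ _ 7]
      have h6 : 0 ≤ ∑ f ∈ range 8, (4 ^ 7 * (n 7 : ℝ)) * (4 ^ f * (n' f : ℝ)) *
          (if 7 + f = d then (1 : ℝ) else 0) := Finset.sum_nonneg fun f _ => nn 7 f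
      linarith
    · rw [cm_Wt]
      calc Wt 8 n * Wt 8 n' ≤ (c * 2 ^ 64) * (c' * 2 ^ 64) := Nat.mul_le_mul hx.w hy.w
        _ = c * c' * 2 ^ 128 := by ring
  · rw [ev]
    have e0 := TM.Ev_mul (s := sS t) sz sz'
    set a := Ev (sS t) z with ha
    set b := Ev (sS t) z' with hb
    have e1 : (2 : ℂ) ^ 62 * (f * g) - Ev (sS t) (TM.cv z z') =
        (2 ^ 31 * f - a) * (2 ^ 31 * g - b) + (2 ^ 31 * f - a) * b + a * (2 ^ 31 * g - b) +
          TM.Hd (sS t) z z' := by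
      have e2 : Ev (sS t) (TM.cv z z') = a * b - TM.Hd (sS t) z z' := by
        rw [e0]
        ring
      rw [e2]
      ring
    rw [e1]
    have ha' := Ev_le hP z
    have hb' := Ev_le hP z'
    have hH := hd_s hP sz sz'
    set A := ‖2 ^ 31 * f - a‖ with hA
    set B := ‖2 ^ 31 * g - b‖ with hB
    have hn : ‖(2 ^ 31 * f - a) * (2 ^ 31 * g - b) + (2 ^ 31 * f - a) * b +
        a * (2 ^ 31 * g - b) + TM.Hd (sS t) z z'‖ ≤ A * B + A * ‖b‖ + ‖a‖ * B +
          ‖TM.Hd (sS t) z z'‖ := by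
      refine (norm_add_le _ _).trans (add_le_add ((norm_add_le _ _).trans (add_le_add
        ((norm_add_le _ _).trans (add_le_add ?_ ?_)) ?_)) le_rfl)
      · rw [norm_mul]
      · rw [norm_mul]
      · rw [norm_mul]
    refine hn.trans ?_
    rw [cm_Tl, sum_last]
    have A0 : 0 ≤ A := norm_nonneg _
    have B0 : 0 ≤ B := norm_nonneg _
    have sa : ‖a‖ ≤ (∑ i ∈ range 7, (n i : ℝ)) / 2 ^ 17 := by
      refine ha'.trans ?_
      rw [Finset.sum_div]
      exact Finset.sum_le_sum fun d hd => nz d (Finset.mem_range.1 hd)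
    have sb : ‖b‖ ≤ (∑ i ∈ range 7, (n' i : ℝ)) / 2 ^ 17 := by
      refine hb'.trans ?_
      rw [Finset.sum_div]
      exact Finset.sum_le_sum fun d hd => nz' d (Finset.mem_range.1 hd)
    have sH : ‖TM.Hd (sS t) z z'‖ ≤ (∑ i ∈ range 7, ∑ j ∈ range 7,
        (n i : ℝ) * (n' j : ℝ) * (if 7 ≤ i + j then 1 else 0)) / 2 ^ 34 := by
      refine hH.trans ?_
      rw [Finset.sum_div]
      refine Finset.sum_le_sum fun e he => ?_
      rw [Finset.sum_div]
      refine Finset.sum_le_sum fun f' hf => ?_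
      rw [Finset.mem_range] at he hf
      have h6 : (n e : ℝ) * (n' f' : ℝ) * (if 7 ≤ e + f' then (1 : ℝ) else 0) / 2 ^ 34 =
          ((n e : ℝ) / 2 ^ 17) * ((n' f' : ℝ) / 2 ^ 17) *
            (if 7 ≤ e + f' then (1 : ℝ) else 0) := by ring
      rw [h6]
      refine mul_le_mul_of_nonneg_right ?_ (by split_ifs <;> norm_num)
      exact mul_le_mul (nz e he) (nz' f' hf) (div_nonneg (TM.Nh_nn _ _) (by positivity))
        (by positivity)
    have p1 : A * B ≤ ((n 7 : ℝ) / 2 ^ 17) * ((n' 7 : ℝ) / 2 ^ 17) :=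
      mul_le_mul ex ey B0 (by positivity)
    have p2 : A * ‖b‖ ≤ ((n 7 : ℝ) / 2 ^ 17) * ((∑ i ∈ range 7, (n' i : ℝ)) / 2 ^ 17) :=
      mul_le_mul ex sb (norm_nonneg _) (by positivity)
    have p3 : ‖a‖ * B ≤ ((∑ i ∈ range 7, (n i : ℝ)) / 2 ^ 17) * ((n' 7 : ℝ) / 2 ^ 17) :=
      mul_le_mul sa ey B0 (div_nonneg (Finset.sum_nonneg fun _ _ => Nat.cast_nonneg _)
        (by positivity))
    set S1 := ∑ i ∈ range 7, (n i : ℝ)
    set S2 := ∑ i ∈ range 7, (n' i : ℝ)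
    set S3 := ∑ i ∈ range 7, ∑ j ∈ range 7, (n i : ℝ) * (n' j : ℝ) * (if 7 ≤ i + j then (1 : ℝ) else 0)
    have fin : (S3 + (S1 * (n' 7 : ℝ) + (n 7 : ℝ) * S2 + (n 7 : ℝ) * (n' 7 : ℝ))) / 2 ^ 34 =
        ((n 7 : ℝ) / 2 ^ 17) * ((n' 7 : ℝ) / 2 ^ 17) + ((n 7 : ℝ) / 2 ^ 17) * (S2 / 2 ^ 17) +
          (S1 / 2 ^ 17) * ((n' 7 : ℝ) / 2 ^ 17) + S3 / 2 ^ 34 := by ring
    rw [fin]
    exact add_le_add (add_le_add (add_le_add p1 p2) p3) sH

/-- PRODUCT -/
theorem RV.mul (hP : PT 3 t) (hx : FV c t f x) (hy : FV c' t g y) (h : c ≤ 4) (h' : c' ≤ 4) :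
    RV (c * c') t (f * g) (mulR x y) := by
  intro hk
  have hk' : andB x.k y.k = true := hk
  obtain ⟨k1, k2⟩ := andB_t hk'
  obtain ⟨p, q, n, hx1, hx2⟩ := hx k1
  obtain ⟨p', q', n', hy1, hy2⟩ := hy k2
  refine ⟨_, _, _, mul_core hP hx1 hy1 hx2 hy2 ?_ rfl⟩
  have e : ((mulR x y).N : ℤ) = (zF x : ℤ) * (reF y : ℤ) + (yF x : ℤ) * (imF y : ℤ) := by
    show ((zF x * reF y + yF x * imF y : ℕ) : ℤ) = _
    push_cast
    rfl
  rw [e, zF_z hx1, reF_z hy1, yF_z hx1 h, imF_z hy1]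
  generalize Sz 301 p = P
  generalize Sz 301 q = Q
  generalize Sz 301 p' = P'
  generalize Sz 301 q' = Q'
  generalize (2 : ℤ) ^ (160 * 301) = M
  have e2 : (P + 2 ^ 80 * Q + M) * (P' + M) + (2 ^ 80 * P - Q + 2 * M) * (Q' + M) =
      ((P + 2 ^ 80 * Q) * P' + (2 ^ 80 * P - Q) * Q') + M * ((P + 2 ^ 80 * Q) + P' + M +
        (2 ^ 80 * P - Q) + 2 * Q' + 2 * M) := by ring
  rw [e2]
  exact TM.md_add _ _ _

/-- PRODUCT BY A REAL POLYNOMIAL -/
theorem RV.muls (hP : PT 3 t) (hx : FV c t f x) (hy : FV c' t g y) (_h : c ≤ 4) (_h' : c' ≤ 4) :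
    RV (c * c') t (f * g) (mulS x y) := by
  intro hk
  have hk' : andB (andB x.k y.k) (Nat.beq y.b fO) = true := hk
  obtain ⟨k12, k3⟩ := andB_t hk'
  obtain ⟨k1, k2⟩ := andB_t k12
  obtain ⟨p, q, n, hx1, hx2⟩ := hx k1
  obtain ⟨p', q', n', hy1, hy2⟩ := hy k2
  refine ⟨_, _, _, mul_core hP hx1 hy1 hx2 hy2 ?_ rfl⟩
  have e : ((mulS x y).N : ℤ) = (zF x : ℤ) * (reF y : ℤ) := by
    show ((zF x * reF y : ℕ) : ℤ) = _
    push_cast
    rfl
  have hb : y.b = fO := Nat.eq_of_beq_eq_true k3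
  have hq : Sz 301 q' = 0 := by
    have h1 := hy1.b
    rw [hb, fO_z, TM.Sz_add] at h1
    linarith
  rw [e, zF_z hx1, reF_z hy1, hq]
  generalize Sz 301 p = P
  generalize Sz 301 q = Q
  generalize Sz 301 p' = P'
  generalize (2 : ℤ) ^ (160 * 301) = M
  have e2 : (P + 2 ^ 80 * Q + M) * (P' + M) =
      ((P + 2 ^ 80 * Q) * P' + (2 ^ 80 * P - Q) * 0) + M * ((P + 2 ^ 80 * Q) + P' + M) := by ring
  rw [e2]
  exact TM.md_add _ _ _

theorem Nh_add (a b : ℕ → ℂ) (d : ℕ) : Nh (fun i => a i + b i) d ≤ Nh a d + Nh b d := by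
  unfold Nh
  rw [← Finset.sum_add_distrib]
  exact Finset.sum_le_sum fun r _ => norm_add_le _ _

theorem zc_add (p q p' q' : ℕ → ℤ) : zc (fun i => p i + p' i) (fun i => q i + q' i) =
    fun i => zc p q i + zc p' q' i := by
  funext i
  unfold zc
  push_cast
  ring

theorem Wt_add (m : ℕ) (n n' : ℕ → ℕ) : Wt m (fun i => n i + n' i) = Wt m n + Wt m n' := by
  unfold Wt
  rw [← Finset.sum_add_distrib]
  exact Finset.sum_congr rfl fun i _ => by ring

theorem Tl_add (n n' : ℕ → ℕ) : Tl (fun i => n i + n' i) = Tl n + Tl n' := by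
  unfold Tl
  rw [← Finset.sum_add_distrib]

theorem RV.add (hu : RV c t f u) (hv : RV c' t g v) : RV (c + c') t (f + g) (addR u v) := by
  intro hk
  have hk' : andB u.k v.k = true := hk
  obtain ⟨k1, k2⟩ := andB_t hk'
  obtain ⟨p, q, n, h1, h2⟩ := hu k1
  obtain ⟨p', q', n', h3, h4⟩ := hv k2
  refine ⟨fun i => p i + p' i, fun i => q i + q' i, fun i => n i + n' i, ⟨?_, ?_,
    TM.Sp_add h1.sp h3.sp, TM.Sp_add h1.sq h3.sq, ?_, ?_⟩, ?_⟩
  · have e : ((addR u v).N : ℤ) = (u.N : ℤ) + v.N := by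
      show ((u.N + v.N : ℕ) : ℤ) = _
      push_cast
      rfl
    have e2 : Sz 301 (fun i => (p i + p' i) + 2 ^ 80 * (q i + q' i)) =
        Sz 301 (fun i => p i + 2 ^ 80 * q i) + Sz 301 (fun i => p' i + 2 ^ 80 * q' i) := by
      rw [← TM.Sz_add]
      exact TM.Sz_congr fun i _ => by ring
    rw [e, e2]
    exact h1.N.add h3.N
  · show u.D + v.D = _
    rw [h1.D, h3.D, TM.Sm_add]
  · intro d hd
    rw [zc_add]
    have a1 := h1.h d hd
    have a2 := h3.h d hd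
    have a3 := Nh_add (zc p q) (zc p' q') d
    push_cast
    nlinarith
  · rw [Wt_add, add_mul]
    exact Nat.add_le_add h1.w h3.w
  · rw [zc_add, TM.Ev_add, Tl_add]
    have e : (2 : ℂ) ^ 62 * (f + g) - (Ev (sS t) (zc p q) + Ev (sS t) (zc p' q')) =
        (2 ^ 62 * f - Ev (sS t) (zc p q)) + (2 ^ 62 * g - Ev (sS t) (zc p' q')) := by ring
    rw [e]
    push_cast
    rw [add_div]
    exact (norm_add_le _ _).trans (add_le_add h2 h4)

theorem Nh_smul (a : ℕ → ℂ) (k : ℕ) (d : ℕ) : Nh (fun i => 2 ^ k * a i) d = 2 ^ k * Nh a d := by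
  unfold Nh
  rw [Finset.mul_sum]
  refine Finset.sum_congr rfl fun r _ => ?_
  rw [norm_mul, norm_pow]
  simp

/-- shifts: `2 ^ k` times the digits, `2 ^ (k + 17)` times the majorant -/
theorem sft_core {p q : ℕ → ℤ} {n : ℕ → ℕ} (k : ℕ) (hk : k + 17 ≤ 64) (hx : FR c x p q n)
    (hN : (u.N : ℤ) = (Sz 301 p + 2 ^ 80 * Sz 301 q + 2 ^ (160 * 301)) * 2 ^ k)
    (hD : u.D = x.d * 2 ^ (k + 17)) {F : ℂ} (hF : F = 2 ^ k * (2 ^ 31 * f))
    (ex : ‖2 ^ 31 * f - Ev (sS t) (zc p q)‖ ≤ (n 7 : ℝ) / 2 ^ 17) :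
    ∃ p' q' n', RR c u p' q' n' ∧ ‖F - Ev (sS t) (zc p' q')‖ ≤ (Tl n' : ℝ) / 2 ^ 34 := by
  have ez : zc (fun i => 2 ^ k * p i) (fun i => 2 ^ k * q i) = fun i => 2 ^ k * zc p q i := by
    funext i
    unfold zc
    push_cast
    ring
  refine ⟨fun i => 2 ^ k * p i, fun i => 2 ^ k * q i,
    fun i => if i < 8 then n i * 2 ^ (k + 17) else 0, ⟨?_, ?_, ?_, ?_, ?_, ?_⟩, ?_⟩
  · rw [hN]
    have e2 : Sz 301 (fun i => 2 ^ k * p i + 2 ^ 80 * (2 ^ k * q i)) =
        (Sz 301 p + 2 ^ 80 * Sz 301 q) * 2 ^ k := by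
      unfold Sz
      rw [Finset.mul_sum, ← Finset.sum_add_distrib, Finset.sum_mul]
      exact Finset.sum_congr rfl fun i _ => by ring
    rw [e2]
    generalize Sz 301 p + 2 ^ 80 * Sz 301 q = P
    generalize (2 : ℤ) ^ (160 * 301) = M
    have e3 : (P + M) * 2 ^ k = P * 2 ^ k + M * 2 ^ k := by ring
    rw [e3]
    exact TM.md_add _ _ _
  · rw [hD, hx.d, ← TM.Sm_mul]
    have e4 : Sm 15 (fun i => if i < 8 then n i * 2 ^ (k + 17) else 0) =
        Sm (8 + 7) (fun i => if i < 8 then n i * 2 ^ (k + 17) else 0) := rfl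
    rw [e4, TM.Sm_eq, TM.Sm_eq, Finset.sum_range_add]
    have e5 : ∑ i ∈ range 7, (if 8 + i < 8 then n (8 + i) * 2 ^ (k + 17) else 0) *
        2 ^ (160 * (8 + i)) = 0 := by
      refine Finset.sum_eq_zero fun i _ => ?_
      rw [if_neg (by omega), zero_mul]
    rw [e5, add_zero]
    refine Finset.sum_congr rfl fun i hi => ?_
    rw [if_pos (Finset.mem_range.1 hi)]
  · intro i hi
    show 2 ^ k * p i = 0
    rw [hx.sp i hi, mul_zero]
  · intro i hi
    show 2 ^ k * q i = 0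
    rw [hx.sq i hi, mul_zero]
  · intro d hd
    rw [ez, Nh_smul, if_pos (by omega)]
    have h1 := hx.h d hd
    push_cast
    have e6 : (2 : ℝ) ^ 34 * (2 ^ k * Nh (zc p q) d) =
        2 ^ (k + 17) * (2 ^ 17 * Nh (zc p q) d) := by ring
    have e7 : (4 : ℝ) ^ d * ((n d : ℝ) * 2 ^ (k + 17)) = 2 ^ (k + 17) * (4 ^ d * (n d : ℝ)) := by
      ring
    rw [e6, e7]
    exact mul_le_mul_of_nonneg_left h1 (by positivity)
  · have e8 : Wt 15 (fun i => if i < 8 then n i * 2 ^ (k + 17) else 0) =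
        Wt 8 n * 2 ^ (k + 17) := by
      unfold Wt
      have e9 : range 15 = range (8 + 7) := rfl
      rw [e9, Finset.sum_range_add]
      have e5 : ∑ i ∈ range 7, 4 ^ (8 + i) *
          (if 8 + i < 8 then n (8 + i) * 2 ^ (k + 17) else 0) = 0 := by
        refine Finset.sum_eq_zero fun i _ => ?_
        rw [if_neg (by omega), mul_zero]
      rw [e5, add_zero, Finset.sum_mul]
      refine Finset.sum_congr rfl fun i hi => ?_
      show 4 ^ i * (if i < 8 then n i * 2 ^ (k + 17) else 0) = 4 ^ i * n i * 2 ^ (k + 17)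
      rw [if_pos (Finset.mem_range.1 hi)]
      ring
    rw [e8]
    calc Wt 8 n * 2 ^ (k + 17) ≤ (c * 2 ^ 64) * 2 ^ 64 :=
          Nat.mul_le_mul hx.w (Nat.pow_le_pow_right (by norm_num) hk)
      _ = c * 2 ^ 128 := by ring
  · rw [ez, hF]
    have e10 : Ev (sS t) (fun i => 2 ^ k * zc p q i) = 2 ^ k * Ev (sS t) (zc p q) := by
      unfold Ev
      rw [Finset.mul_sum]
      exact Finset.sum_congr rfl fun i _ => by ring
    have e11 : Tl (fun i => if i < 8 then n i * 2 ^ (k + 17) else 0) = n 7 * 2 ^ (k + 17) := by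
      unfold Tl
      rw [Finset.sum_range_succ']
      have e5 : ∑ i ∈ range 7, (if 7 + (i + 1) < 8 then n (7 + (i + 1)) * 2 ^ (k + 17) else 0)
          = 0 := Finset.sum_eq_zero fun i _ => if_neg (by omega)
      rw [e5, zero_add]
      exact if_pos (by omega)
    rw [e10, e11, ← mul_sub, norm_mul, norm_pow]
    have e12 : ‖(2 : ℂ)‖ = 2 := by simp
    rw [e12]
    push_cast
    have e13 : (n 7 : ℝ) * 2 ^ (k + 17) / 2 ^ 34 = 2 ^ k * ((n 7 : ℝ) / 2 ^ 17) := by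
      rw [pow_add]
      ring
    rw [e13]
    exact mul_le_mul_of_nonneg_left ex (by positivity)

theorem RV.lif (hx : FV c t f x) (_h : c ≤ 4) : RV c t f (lifR x) := by
  intro hk
  have hk' : x.k = true := hk
  obtain ⟨p, q, n, hx1, hx2⟩ := hx hk'
  refine sft_core 31 (by norm_num) hx1 ?_ ?_ ?_ hx2
  · have e : ((lifR x).N : ℤ) = (zF x : ℤ) * 2 ^ 31 := by
      show ((Nat.shiftLeft (zF x) 31 : ℕ) : ℤ) = _
      rw [shl]
      push_cast
      rfl
    rw [e, zF_z hx1]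
  · show Nat.shiftLeft x.d 48 = _
    rw [shl]
  · ring

theorem RV.haf (hx : FV c t f x) (_h : c ≤ 4) : RV c t (f / 2) (hafR x) := by
  intro hk
  have hk' : x.k = true := hk
  obtain ⟨p, q, n, hx1, hx2⟩ := hx hk'
  refine sft_core 30 (by norm_num) hx1 ?_ ?_ ?_ hx2
  · have e : ((hafR x).N : ℤ) = (zF x : ℤ) * 2 ^ 30 := by
      show ((Nat.shiftLeft (zF x) 30 : ℕ) : ℤ) = _
      rw [shl]
      push_cast
      rfl
    rw [e, zF_z hx1]
  · show Nat.shiftLeft x.d 47 = _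
    rw [shl]
  · ring

end Pool.Agent.Helper91.FU
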